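import Mathlib
import Pool.Agent.Work.MP_20d0cc_lc.HDefs
import Pool.Agent.Work.MP_20d0cc_lc.Neg

namespace Pool.Agent.Results.MP_20d0cc_lc.ExtensionThreshold

open Pool.Agent.Work.MP_20d0cc_lc

/-- For `k ≥ 2` colours and degree bound `Δ`, finite precolourings of highly computable graphs can
be computably extended or refuted exactly when `Δ < k`. -/
theorem result (k Δ : ℕ) (hk : 2 ≤ k) : List.TFAE
    [Δ < k,
     ∀ G : SimpleGraph ℕ, HighlyComputable G Δ →
       ∃ (D : List (ℕ × ℕ × ℕ) → Bool) (C : List (ℕ × ℕ × ℕ) → ℕ → ℕ → ℕ), Computable D ∧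
         Computable (fun q : List (ℕ × ℕ × ℕ) × ℕ × ℕ => C q.1 q.2.1 q.2.2) ∧
         ∀ p, (D p = true → IsColouring G k (C p) ∧ Extends G p (C p)) ∧
           (D p = false → ¬ ∃ c, IsColouring G k c ∧ Extends G p c),
     ∀ G : SimpleGraph ℕ, HighlyComputable G Δ →
       ComputablePred fun p : List (ℕ × ℕ × ℕ) => ∃ c, IsColouring G k c ∧ Extends G p c] :=
  threshold k Δ hk

end Pool.Agent.Results.MP_20d0cc_lc.ExtensionThreshold
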